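import Pool.Agent.H250R3.Berg.Stmts

set_option autoImplicit false

open Polynomial

namespace Pool.Agent.H410R3.Berg

open Pool.Agent.H250R3.Berg

theorem nu_zero_of (f : ℝ[X]) (h : ∀ s : ℝ, 0 < s → s < 1 → f.eval s ≠ 0) : nu f = 0 := by
  unfold nu
  rw [Multiset.card_eq_zero, Multiset.filter_eq_nil]
  intro x hx hx1
  exact h x hx1.1 hx1.2 (isRoot_of_mem_roots hx)

theorem taskChebB : TaskChebB := by
  intro hRolle hA N ζ hAdm k hk j
  obtain ⟨h1, ⟨E, hE1, hE2, hE3⟩, h3⟩ := hA N ζ hAdm k hk
  induction j with
  | zero =>
    rintro c ⟨m, hm, -⟩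
    exact absurd hm (Nat.not_lt_zero m)
  | succ j ih =>
    intro c hc
    by_cases h : ∃ m < j, c (m + 1) ≠ 0
    · obtain ⟨m, hm, hcm⟩ := h
      have hc' : ∃ m < j, (fun m => c (m + 1) *
          ((N * (m + 1) + k + 1).descFactorial N : ℝ)) m ≠ 0 := by
        refine ⟨m, hm, mul_ne_zero hcm ?_⟩
        rw [Nat.cast_ne_zero, Ne, Nat.descFactorial_eq_zero_iff_lt]
        have : N * (m + 1) = N * m + N := by ring
        omega
      obtain ⟨hne, hnu⟩ := ih _ hc'
      rw [← h1 j c] at hne hnu
      set f := comb N k ζ (j + 1) c with hf
      have hfi : ∀ i ≤ N, derivative^[i] f ≠ 0 := by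
        intro i hi h0
        apply hne
        have e : N = (N - i) + i := by omega
        rw [e, Function.iterate_add_apply, h0]
        exact Polynomial.iterate_derivative_zero
      have hchain : ∀ i ≤ N, nu f + ∑ t ∈ Finset.range i, (E t).card ≤
          nu (derivative^[i] f) + i := by
        intro i
        induction i with
        | zero => intro _; simp
        | succ i ihi =>
          intro hi
          have h4 := ihi (by omega)
          have h5 := hRolle (derivative^[i] f) (E i) (hfi i (by omega))
            (by
              rw [← Function.iterate_succ_apply' (⇑derivative) i f]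
              exact hfi (i + 1) hi)
            (hE1 i) (hE3 (j + 1) c i (by omega))
          rw [← Function.iterate_succ_apply' (⇑derivative) i f] at h5
          change nu (derivative^[i] f) + (E i).card ≤ nu (derivative^[i + 1] f) + 1 at h5
          rw [Finset.sum_range_succ]
          omega
      have h6 := hchain N le_rfl
      refine ⟨hfi 0 (Nat.zero_le _), ?_⟩
      omega
    · push Not at h
      have hc0 : c 0 ≠ 0 := by
        obtain ⟨m, hm, hcm⟩ := hc
        rcases m with _ | m
        · exact hcm
        · exact absurd (h m (by omega)) hcm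
      have hcomb : comb N k ζ (j + 1) c = C (c 0) * U ζ 0 (k + 1) := by
        unfold comb
        rw [Finset.sum_range_succ', Finset.sum_eq_zero, zero_add]
        · simp
        · intro m hm
          rw [h m (Finset.mem_range.1 hm)]
          simp
      have hev : ∀ s : ℝ, 0 < s → s < 1 → (comb N k ζ (j + 1) c).eval s ≠ 0 := by
        intro s hs0 hs1
        rw [hcomb, eval_mul, eval_C]
        exact mul_ne_zero hc0 (h3 s hs0 hs1).ne'
      constructor
      · intro h0
        apply hev (1 / 2) (by norm_num) (by norm_num)
        rw [h0, eval_zero]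
      · rw [nu_zero_of _ hev]
        omega

end Pool.Agent.H410R3.Berg
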